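import Pool.Agent.MT100.StmtsP
import Pool.Agent.Helper94_MT100.Mer

/-! The largest real point `w₁` with `φ (w₁) = λ`, and the local structure of the pulled back fundamental
matrix there (module COP with a polynomial parameter). -/

set_option autoImplicit false

open Filter Topology Set Matrix Polynomial

namespace Pool.Agent.MT100.H98

open Pool.Agent.MT100.H94

/-- a polynomial with positive leading coefficient and positive degree: the last point at which it is at
most `c` -/
theorem last_point (p : ℝ[X]) (hd : 0 < p.natDegree) (hl : 0 < p.leadingCoeff) (c : ℝ)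
    (h : ∃ x, p.eval x ≤ c) : ∃ w1, p.eval w1 = c ∧ ∀ w, w1 < w → c < p.eval w := by
  have ht : Tendsto (fun x => p.eval x) atTop atTop :=
    p.tendsto_atTop_of_leadingCoeff_nonneg (natDegree_pos_iff_degree_pos.1 hd) hl.le
  obtain ⟨b, hb⟩ := (ht.eventually_gt_atTop c).exists_forall_of_atTop
  have hbdd : BddAbove {x | p.eval x ≤ c} := by
    refine ⟨b, fun x hx => ?_⟩
    by_contra hbx
    exact absurd (hb x (not_le.1 hbx).le) (not_lt.2 hx)
  have hcl : IsClosed {x | p.eval x ≤ c} := isClosed_le p.continuous continuous_const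
  have hmem : sSup {x | p.eval x ≤ c} ∈ {x | p.eval x ≤ c} := hcl.csSup_mem h hbdd
  have hgt : ∀ w, sSup {x | p.eval x ≤ c} < w → c < p.eval w := by
    intro w hw
    by_contra hn
    exact absurd (le_csSup hbdd (not_lt.1 hn : w ∈ {x | p.eval x ≤ c})) (not_le.2 hw)
  refine ⟨sSup {x | p.eval x ≤ c}, le_antisymm hmem ?_, hgt⟩
  have ht2 : Tendsto (fun x => p.eval x) (𝓝[>] (sSup {x | p.eval x ≤ c}))
      (𝓝 (p.eval (sSup {x | p.eval x ≤ c}))) :=
    (p.continuous.tendsto _).mono_left nhdsWithin_le_nhds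
  refine ge_of_tendsto ht2 ?_
  filter_upwards [self_mem_nhdsWithin] with w hw
  exact (hgt w hw).le

/-- the local form of `p - c` at the last point -/
theorem local_form (p : ℝ[X]) (c w1 : ℝ) (h0 : p.eval w1 = c) (h1 : ∀ w, w1 < w → c < p.eval w) :
    ∃ (m : ℕ) (g : ℝ[X]), 0 < m ∧ 0 < g.eval 0 ∧
      ∀ u, p.eval (w1 + u) = c + u ^ m * g.eval u := by
  set q : ℝ[X] := p.comp (X + C w1) - C c with hq
  have hev : ∀ u, q.eval u = p.eval (w1 + u) - c := by
    intro u
    rw [hq, eval_sub, eval_comp, eval_add, eval_X, eval_C, eval_C, add_comm]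
  have hq0 : q ≠ 0 := by
    intro h
    have h2 := hev 1
    rw [h, eval_zero] at h2
    have h3 := h1 (w1 + 1) (by linarith)
    linarith
  have hr : q.IsRoot 0 := by
    rw [IsRoot, hev, add_zero, h0, sub_self]
  obtain ⟨g, hg, hng⟩ := exists_eq_pow_rootMultiplicity_mul_and_not_dvd q hq0 0
  have hm : 0 < rootMultiplicity 0 q := (rootMultiplicity_pos hq0).2 hr
  have hval : ∀ u, q.eval u = u ^ rootMultiplicity 0 q * g.eval u := by
    intro u
    conv_lhs => rw [hg]
    rw [eval_mul, eval_pow, eval_sub, eval_X, eval_C, sub_zero]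
  have hg0 : g.eval 0 ≠ 0 := by
    intro h
    exact hng (dvd_iff_isRoot.2 h)
  refine ⟨rootMultiplicity 0 q, g, hm, lt_of_le_of_ne ?_ hg0.symm, fun u => ?_⟩
  · have ht2 : Tendsto (fun x => g.eval x) (𝓝[>] (0 : ℝ)) (𝓝 (g.eval 0)) :=
      (g.continuous.tendsto _).mono_left nhdsWithin_le_nhds
    refine ge_of_tendsto ht2 ?_
    filter_upwards [self_mem_nhdsWithin] with u hu
    have hu' : 0 < u := hu
    have h3 : 0 < q.eval u := by
      rw [hev]
      have := h1 (w1 + u) (by linarith)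
      linarith
    rw [hval] at h3
    exact (pos_of_mul_pos_right h3 (pow_pos hu' _).le).le
  · have := hval u
    rw [hev] at this
    linarith

/-- pullback of germs -/
theorem merG_comp {f : ℝ → ℝ} (hf : MerG f) {m : ℕ} (hm : 0 < m) {g : ℝ → ℝ}
    (hg : AnalyticAt ℝ g 0) (hg0 : 0 < g 0) : MerG fun u => f (u ^ m * g u) := by
  obtain ⟨k, F, hF, h1⟩ := hf
  have hps : AnalyticAt ℝ (fun u : ℝ => u ^ m * g u) 0 := (analyticAt_id.pow m).mul hg
  have hps0 : (0 : ℝ) ^ m * g 0 = 0 := by rw [zero_pow hm.ne', zero_mul]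
  have hpos : ∀ᶠ u in 𝓝[>] (0 : ℝ), 0 < g u :=
    (hg.continuousAt.tendsto.eventually (lt_mem_nhds hg0)).filter_mono nhdsWithin_le_nhds
  have hmap : Tendsto (fun u : ℝ => u ^ m * g u) (𝓝[>] (0 : ℝ)) (𝓝[>] (0 : ℝ)) := by
    rw [tendsto_nhdsWithin_iff]
    constructor
    · have := hps.continuousAt.tendsto
      simp only [hps0] at this
      exact this.mono_left nhdsWithin_le_nhds
    · filter_upwards [self_mem_nhdsWithin, hpos] with u hu hgu
      exact mul_pos (pow_pos hu m) hgu
  refine ⟨m * k, fun u => F (u ^ m * g u) * ((g u) ^ k)⁻¹, ?_, ?_⟩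
  · refine AnalyticAt.mul ?_ ((hg.pow k).inv (pow_ne_zero k hg0.ne'))
    exact AnalyticAt.fun_comp_of_eq hF hps hps0
  · filter_upwards [hmap.eventually h1, hpos] with u h2 hgu
    have hgk : (g u) ^ k ≠ 0 := pow_ne_zero k hgu.ne'
    rw [← h2, mul_pow, ← pow_mul]
    field_simp

/-- COP -/
theorem cop (hcon : ConStmt) (hcyc : CycStmt) : CopStmt := by
  intro D φ hA
  have hinj : Function.Injective (algebraMap ℚ ℝ) := (algebraMap ℚ ℝ).injective
  have hd : 0 < (φ.map (algebraMap ℚ ℝ)).natDegree := by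
    rw [natDegree_map_eq_of_injective hinj]
    exact hA.deg
  have hl : 0 < (φ.map (algebraMap ℚ ℝ)).leadingCoeff := by
    rw [leadingCoeff_map]
    have := hA.lead
    rw [eq_ratCast]
    exact_mod_cast this
  obtain ⟨w1, h0, h1⟩ := last_point (φ.map (algebraMap ℚ ℝ)) hd hl (D.lam : ℝ) hA.low
  obtain ⟨m, g, hm, hg0, hform⟩ := local_form _ _ w1 h0 h1
  obtain ⟨v, l, A, hAm, hvm, hW⟩ := hcon D
  obtain ⟨hv, hlz, hlv⟩ := hcyc D v l A hAm hvm hW
  have hga : AnalyticAt ℝ (fun u => g.eval u) 0 := AnalyticOnNhd.eval_polynomial g 0 trivial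
  have hpv : ∀ u, pv φ (w1 + u) = D.lam + u ^ m * g.eval u := fun u => hform u
  refine ⟨w1, h0, h1, v, (m : ℝ) • l,
    fun u => A (u ^ m * g.eval u) + Real.log (g.eval u) •
      vecMulVec (W D (pv φ (w1 + u)) *ᵥ v) l, ?_, ?_, ?_, hv, ?_, ?_⟩
  · intro a i
    have e1 := merG_comp (hAm a i) hm hga hg0
    have e2 := merG_comp (hvm a) hm hga hg0
    have e3 : MerG fun u => Real.log (g.eval u) := merG_analytic (hga.log hg0)
    have e4 := merG_add e1 (merG_mul e3 (merG_mul e2 (merG_const (l i))))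
    refine merG_congr (Eventually.of_forall fun u => ?_) e4
    change _ = (A (u ^ m * g.eval u) + Real.log (g.eval u) •
      vecMulVec (W D (pv φ (w1 + u)) *ᵥ v) l) a i
    rw [hpv, Matrix.add_apply, Matrix.smul_apply, vecMulVec_apply, smul_eq_mul]
  · intro a
    have e2 := merG_comp (hvm a) hm hga hg0
    refine merG_congr (Eventually.of_forall fun u => ?_) e2
    rw [hpv]
  · have hpos : ∀ᶠ u in 𝓝[>] (0 : ℝ), 0 < g.eval u :=
      (hga.continuousAt.tendsto.eventually (lt_mem_nhds hg0)).filter_mono nhdsWithin_le_nhds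
    have hmap : Tendsto (fun u : ℝ => u ^ m * g.eval u) (𝓝[>] (0 : ℝ)) (𝓝[>] (0 : ℝ)) := by
      rw [tendsto_nhdsWithin_iff]
      constructor
      · have h2 : Tendsto (fun u : ℝ => u ^ m * g.eval u) (𝓝 (0 : ℝ)) (𝓝 ((0 : ℝ) ^ m * g.eval 0)) :=
          ((continuous_pow m).mul g.continuous).tendsto 0
        rw [zero_pow hm.ne', zero_mul] at h2
        exact h2.mono_left nhdsWithin_le_nhds
      · filter_upwards [self_mem_nhdsWithin, hpos] with u hu hgu
        exact mul_pos (pow_pos hu m) hgu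
    filter_upwards [hmap.eventually hW, hpos, self_mem_nhdsWithin] with u h2 hgu hu
    have hu' : (0 : ℝ) < u := hu
    have hlog : Real.log (u ^ m * g.eval u) = m * Real.log u + Real.log (g.eval u) := by
      rw [Real.log_mul (pow_pos hu' m).ne' hgu.ne', Real.log_pow]
    rw [hpv]
    conv_lhs => rw [h2]
    rw [hlog]
    ext a i
    simp only [Matrix.add_apply, Matrix.smul_apply, vecMulVec_apply, smul_eq_mul, Pi.smul_apply]
    ring
  · rw [Pi.smul_apply, smul_eq_mul]
    exact mul_ne_zero (by exact_mod_cast hm.ne') hlz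
  · rw [smul_dotProduct, hlv, smul_zero]

end Pool.Agent.MT100.H98
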