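import Pool.Agent.MT100B.StmtsP
import Pool.Agent.Helper94_MT100.Mer

/-! The local structure of the pulled back fundamental matrix at the largest real point `w₁` with
`φ (w₁) = λ`, even weight (module COP of MT100B with a polynomial parameter). -/

set_option autoImplicit false

open Filter Topology Set Matrix Polynomial

namespace Pool.Agent.MT100B.H98

open Pool.Agent.MT100 Pool.Agent.MT100.H94

/-- the local form of `p - c` at a simple root, to the right of which it is positive -/
theorem simple_form (p : ℝ[X]) (c w1 : ℝ) (h0 : p.eval w1 = c) (h1 : ∀ w, w1 < w → c < p.eval w)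
    (h2 : (derivative p).eval w1 ≠ 0) :
    ∃ g : ℝ[X], 0 < g.eval 0 ∧ ∀ u, p.eval (w1 + u) = c + u * g.eval u := by
  set q : ℝ[X] := p.comp (X + C w1) - C c with hq
  have hev : ∀ u, q.eval u = p.eval (w1 + u) - c := by
    intro u
    rw [hq, eval_sub, eval_comp, eval_add, eval_X, eval_C, eval_C, add_comm]
  have hr : q.IsRoot 0 := by
    rw [IsRoot, hev, add_zero, h0, sub_self]
  obtain ⟨g, hg⟩ := dvd_iff_isRoot.2 hr
  rw [map_zero, sub_zero] at hg
  have hval : ∀ u, q.eval u = u * g.eval u := by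
    intro u
    conv_lhs => rw [hg]
    rw [eval_mul, eval_X]
  have hder : (derivative q).eval 0 = (derivative p).eval w1 := by
    rw [hq, derivative_sub, derivative_C, sub_zero, derivative_comp, derivative_add, derivative_X,
      derivative_C, add_zero, one_mul, eval_comp, eval_add, eval_X, eval_C, zero_add]
  have hg0 : g.eval 0 ≠ 0 := by
    rw [← hder, hg, derivative_mul, derivative_X, one_mul, eval_add, eval_mul, eval_X, zero_mul,
      add_zero] at h2
    exact h2
  refine ⟨g, lt_of_le_of_ne ?_ hg0.symm, fun u => ?_⟩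
  · have ht2 : Tendsto (fun x => g.eval x) (𝓝[>] (0 : ℝ)) (𝓝 (g.eval 0)) :=
      (g.continuous.tendsto _).mono_left nhdsWithin_le_nhds
    refine ge_of_tendsto ht2 ?_
    filter_upwards [self_mem_nhdsWithin] with u hu
    have hu' : 0 < u := hu
    have h3 : 0 < q.eval u := by
      rw [hev]
      have := h1 (w1 + u) (by linarith)
      linarith
    rw [hval] at h3
    exact (pos_of_mul_pos_right h3 hu'.le).le
  · have := hval u
    rw [hev] at this
    linarith

section comp

variable {g : ℝ → ℝ}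

theorem tend_psi (hg : AnalyticAt ℝ g 0) (hg0 : 0 < g 0) :
    Tendsto (fun u : ℝ => u * g u) (𝓝[>] (0 : ℝ)) (𝓝[>] (0 : ℝ)) := by
  have hpos : ∀ᶠ u in 𝓝[>] (0 : ℝ), 0 < g u :=
    (hg.continuousAt.tendsto.eventually (lt_mem_nhds hg0)).filter_mono nhdsWithin_le_nhds
  rw [tendsto_nhdsWithin_iff]
  constructor
  · have hps : AnalyticAt ℝ (fun u : ℝ => u * g u) 0 := analyticAt_id.mul hg
    have h2 := hps.continuousAt.tendsto
    simp only [zero_mul] at h2
    exact h2.mono_left nhdsWithin_le_nhds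
  · filter_upwards [self_mem_nhdsWithin, hpos] with u hu hgu
    exact mul_pos hu hgu

/-- pullback of analytic germs -/
theorem analytic_comp {f : ℝ → ℝ} (hf : AnalyticAt ℝ f 0) (hg : AnalyticAt ℝ g 0) :
    AnalyticAt ℝ (fun u => f (u * g u)) 0 :=
  AnalyticAt.fun_comp_of_eq hf (analyticAt_id.mul hg) (by simp)

/-- pullback of germs -/
theorem merG_comp {f : ℝ → ℝ} (hf : MerG f) (hg : AnalyticAt ℝ g 0) (hg0 : 0 < g 0) :
    MerG fun u => f (u * g u) := by
  obtain ⟨k, F, hF, h1⟩ := hf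
  have hpos : ∀ᶠ u in 𝓝[>] (0 : ℝ), 0 < g u :=
    (hg.continuousAt.tendsto.eventually (lt_mem_nhds hg0)).filter_mono nhdsWithin_le_nhds
  refine ⟨k, fun u => F (u * g u) * ((g u) ^ k)⁻¹,
    (analytic_comp hF hg).mul ((hg.pow k).inv (pow_ne_zero k hg0.ne')), ?_⟩
  filter_upwards [(tend_psi hg hg0).eventually h1, hpos] with u h2 hgu
  have hgk : (g u) ^ k ≠ 0 := pow_ne_zero k hgu.ne'
  rw [← h2, mul_pow]
  field_simp

/-- the inverse square root of a positive analytic germ -/
theorem merG_sqrt_inv (hg : AnalyticAt ℝ g 0) (hg0 : 0 < g 0) :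
    MerG fun u => (Real.sqrt (g u))⁻¹ := by
  have hpos : ∀ᶠ u in 𝓝[>] (0 : ℝ), 0 < g u :=
    (hg.continuousAt.tendsto.eventually (lt_mem_nhds hg0)).filter_mono nhdsWithin_le_nhds
  have h1 : AnalyticAt ℝ (fun u => Real.exp (-(1 / 2) * Real.log (g u))) 0 :=
    (analyticAt_const.mul (hg.log hg0)).rexp'
  refine merG_congr ?_ (merG_analytic h1)
  filter_upwards [hpos] with u hgu
  rw [Real.sqrt_eq_rpow, Real.rpow_def_of_pos hgu, ← Real.exp_neg]
  congr 1
  ring

end comp

/-- COP -/
theorem cop (hcon : ConStmt) (hcyc : CycStmt) : CopStmt := by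
  intro D φ hA
  obtain ⟨w1, h0, h1, h2⟩ := hA.root
  have h2' : (derivative (φ.map (algebraMap ℚ ℝ))).eval w1 ≠ 0 := by
    rw [derivative_map]
    exact h2
  obtain ⟨g, hg0, hform⟩ := simple_form (φ.map (algebraMap ℚ ℝ)) (D.lam : ℝ) w1 h0 h1 h2'
  obtain ⟨v, l, A, hAm, hvm, hlv, hW⟩ := hcon D
  obtain ⟨hv, hlz, hc⟩ := hcyc D v l A hAm hvm hlv hW
  have hga : AnalyticAt ℝ (fun u => g.eval u) 0 := AnalyticOnNhd.eval_polynomial g 0 trivial
  have hpv : ∀ u, pv φ (w1 + u) = D.lam + u * g.eval u := fun u => hform u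
  have hpos : ∀ᶠ u in 𝓝[>] (0 : ℝ), 0 < g.eval u :=
    (hga.continuousAt.tendsto.eventually (lt_mem_nhds hg0)).filter_mono nhdsWithin_le_nhds
  refine ⟨w1, h0, h1, v, l, fun u => A (u * g.eval u), ?_, ?_, ?_, hv, hlz, hlv, hc⟩
  · intro a i
    exact merG_analytic (analytic_comp (hAm a i) hga)
  · intro a
    have e1 := merG_comp (hvm a) hga hg0
    have e2 := merG_mul (merG_sqrt_inv hga hg0) e1
    refine merG_congr ?_ e2
    filter_upwards [hpos, self_mem_nhdsWithin] with u hgu hu
    have hu' : (0 : ℝ) < u := hu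
    rw [hpv, Real.sqrt_mul hu'.le]
    have hs : Real.sqrt (g.eval u) ≠ 0 := (Real.sqrt_pos.2 hgu).ne'
    field_simp
  · filter_upwards [(tend_psi hga hg0).eventually hW] with u h3
    rw [hpv]
    exact h3

end Pool.Agent.MT100B.H98
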